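import Mathlib

/-!
# MP_31464c_co: path odd-covers. Definitions
-/

set_option autoImplicit false

namespace Pool.Agent.Work.MP_31464c_co

/-- `P 0, ..., P (k - 1)` are paths in the complete graph on the vertex set of `G`, and the symmetric
difference of their edge sets is the edge set of `G`: a pair of vertices is an edge of an odd number
of the paths if and only if it is an edge of `G`. -/
def IsPathOddCover {V : Type} (G : SimpleGraph V) {k : ℕ}
    (P : Fin k → Σ p : V × V, (⊤ : SimpleGraph V).Path p.1 p.2) : Prop :=
  ∀ e : Sym2 V, Odd (Nat.card {i : Fin k // e ∈ (P i).2.1.edges}) ↔ e ∈ G.edgeSet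

/-- The path odd-cover number: the least number of paths in a path odd-cover. -/
noncomputable def p2 {V : Type} (G : SimpleGraph V) : ℕ :=
  sInf {k | ∃ P : Fin k → Σ p : V × V, (⊤ : SimpleGraph V).Path p.1 p.2, IsPathOddCover G P}

/-- The number of vertices of odd degree. -/
noncomputable def vodd {V : Type} (G : SimpleGraph V) : ℕ :=
  Nat.card {v : V // Odd (Nat.card (G.neighborSet v))}

end Pool.Agent.Work.MP_31464c_co
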