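import Pool.Agent.Work.MP_31464c_co.Defs

/-!
# MP_31464c_co: the disjoint union of an even complete graph and a graph with even degrees
-/

set_option autoImplicit false

open Classical

namespace Pool.Agent.Work.MP_31464c_co

/-- The neighbours of `v` along a walk. -/
noncomputable def nb {V : Type} [Fintype V] {u w : V} (p : (⊤ : SimpleGraph V).Walk u w) (v : V) :
    Finset V :=
  Finset.univ.filter (fun x => s(v, x) ∈ p.edges)

theorem nb_start {V : Type} [Fintype V] {u w : V} (p : (⊤ : SimpleGraph V).Walk u w)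
    (hp : p.IsPath) : (nb p u).card ≤ 1 := by
  cases p with
  | nil => simp [nb]
  | @cons _ v' _ h q =>
    rw [SimpleGraph.Walk.cons_isPath_iff] at hp
    apply Finset.card_le_one.2
    intro a ha b hb
    have key : ∀ x, x ∈ nb (SimpleGraph.Walk.cons h q) u → x = v' := by
      intro x hx
      simp only [nb, Finset.mem_filter, Finset.mem_univ, true_and, SimpleGraph.Walk.edges_cons,
        List.mem_cons] at hx
      rcases hx with hx | hx
      · rcases Sym2.eq_iff.1 hx with ⟨_, h2⟩ | ⟨h1, h2⟩
        · exact h2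
        · rw [h2, h1]
      · exact absurd (q.fst_mem_support_of_mem_edges hx) hp.2
    rw [key a ha, key b hb]

theorem nb_le {V : Type} [Fintype V] (v : V) {u w : V} (p : (⊤ : SimpleGraph V).Walk u w)
    (hp : p.IsPath) : (nb p v).card ≤ 2 := by
  induction p with
  | nil => simp [nb]
  | @cons u v' w h q ih =>
    by_cases hvu : v = u
    · subst hvu
      exact (nb_start _ hp).trans (by norm_num)
    · rw [SimpleGraph.Walk.cons_isPath_iff] at hp
      by_cases hvv : v = v'
      · subst hvv
        have h1 : nb (SimpleGraph.Walk.cons h q) v ⊆ {u} ∪ nb q v := by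
          intro x hx
          simp only [nb, Finset.mem_filter, Finset.mem_univ, true_and,
            SimpleGraph.Walk.edges_cons, List.mem_cons] at hx
          rcases hx with hx | hx
          · rcases Sym2.eq_iff.1 hx with ⟨h1, _⟩ | ⟨_, h2⟩
            · exact absurd h1 hvu
            · simp [h2]
          · simp [nb, hx]
        have h2 := Finset.card_le_card h1
        have h3 := Finset.card_union_le {u} (nb q v)
        have h4 := nb_start q hp.1
        rw [Finset.card_singleton] at h3
        omega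
      · have h1 : nb (SimpleGraph.Walk.cons h q) v ⊆ nb q v := by
          intro x hx
          simp only [nb, Finset.mem_filter, Finset.mem_univ, true_and,
            SimpleGraph.Walk.edges_cons, List.mem_cons] at hx
          rcases hx with hx | hx
          · rcases Sym2.eq_iff.1 hx with ⟨h1, _⟩ | ⟨h1, _⟩
            · exact absurd h1 hvu
            · exact absurd h1 hvv
          · simp [nb, hx]
        exact (Finset.card_le_card h1).trans (ih hp.1)

/-- Every finite graph has a path odd-cover: its edges. -/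
theorem exists_cover {V : Type} [Fintype V] (G : SimpleGraph V) :
    ∃ (k : ℕ) (P : Fin k → Σ p : V × V, (⊤ : SimpleGraph V).Path p.1 p.2),
      IsPathOddCover G P := by
  have hE : ∀ e : G.edgeSet, ∃ P : Σ p : V × V, (⊤ : SimpleGraph V).Path p.1 p.2,
      ∀ e' : Sym2 V, e' ∈ P.2.1.edges ↔ e' = e.1 := by
    rintro ⟨e, he⟩
    induction e with
    | _ u v =>
      have huv : G.Adj u v := he
      have h : (⊤ : SimpleGraph V).Adj u v := huv.ne
      refine ⟨⟨(u, v), SimpleGraph.Path.singleton h⟩, fun e' => ?_⟩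
      simp [SimpleGraph.Path.singleton]
  choose Q hQ using hE
  obtain ⟨n, ⟨φ⟩⟩ := Finite.exists_equiv_fin G.edgeSet
  refine ⟨n, fun i => Q (φ.symm i), fun e => ?_⟩
  by_cases he : e ∈ G.edgeSet
  · have h1 : Nat.card {i : Fin n // e ∈ (Q (φ.symm i)).2.1.edges} = 1 := by
      rw [Nat.card_eq_one_iff_unique]
      refine ⟨⟨?_⟩, ⟨⟨φ ⟨e, he⟩, ?_⟩⟩⟩
      · rintro ⟨i, hi⟩ ⟨j, hj⟩
        rw [hQ] at hi hj
        have : φ.symm i = φ.symm j := Subtype.ext (hi.symm.trans hj)
        exact Subtype.ext (φ.symm.injective this)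
      · rw [hQ]
        simp
    rw [h1]
    exact iff_of_true odd_one he
  · have h1 : Nat.card {i : Fin n // e ∈ (Q (φ.symm i)).2.1.edges} = 0 := by
      have : IsEmpty {i : Fin n // e ∈ (Q (φ.symm i)).2.1.edges} := by
        refine ⟨?_⟩
        rintro ⟨i, hi⟩
        rw [hQ] at hi
        exact he (hi ▸ (φ.symm i).2)
      exact Nat.card_of_isEmpty
    rw [h1]
    exact iff_of_false (by decide) he

/-- No path odd-cover with few paths. -/
theorem no_cover {V : Type} [Fintype V] (G : SimpleGraph V) (A : Finset V) (k : ℕ) (hk : 1 ≤ k)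
    (hA : A.card = 2 * k) (hcl : ∀ v ∈ A, ∀ x, G.Adj v x ↔ (x ∈ A ∧ x ≠ v))
    {a b : V} (ha : a ∉ A) (hab : G.Adj a b) {m : ℕ} (hm : m ≤ k)
    (P : Fin m → Σ p : V × V, (⊤ : SimpleGraph V).Path p.1 p.2) : ¬ IsPathOddCover G P := by
  intro hP
  set M : V → V → ℕ := fun v x =>
    (Finset.univ.filter fun i : Fin m => s(v, x) ∈ (P i).2.1.edges).card with hMd
  have hM : ∀ v x, Odd (M v x) ↔ G.Adj v x := by
    intro v x
    have h := hP s(v, x)
    rw [Nat.card_eq_fintype_card, Fintype.card_subtype] at h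
    exact h
  have hsum : ∀ v, ∑ x, M v x = ∑ i, (nb (P i).2.1 v).card := by
    intro v
    simp only [M, nb, Finset.card_filter]
    rw [Finset.sum_comm]
  have hle : ∀ v, ∑ x, M v x ≤ 2 * m := by
    intro v
    rw [hsum]
    calc ∑ i, (nb (P i).2.1 v).card ≤ ∑ _i : Fin m, 2 :=
          Finset.sum_le_sum (fun i _ => nb_le v _ (P i).2.2)
      _ = 2 * m := by simp [mul_comm]
  -- the degrees in `A`
  have hsplit : ∀ v, ∑ x, M v x = ∑ x ∈ A.erase v, M v x + ∑ x ∈ (A.erase v)ᶜ, M v x := by
    intro v
    rw [Finset.sum_add_sum_compl]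
  have hodd1 : ∀ v ∈ A, ∀ x ∈ A.erase v, Odd (M v x) := by
    intro v hv x hx
    rw [Finset.mem_erase] at hx
    exact (hM v x).2 ((hcl v hv x).2 ⟨hx.2, hx.1⟩)
  have heven : ∀ v ∈ A, ∀ x ∈ (A.erase v)ᶜ, Even (M v x) := by
    intro v hv x hx
    rw [Finset.mem_compl, Finset.mem_erase] at hx
    rw [← Nat.not_odd_iff_even, hM v x, hcl v hv x]
    tauto
  have hcard : ∀ v ∈ A, (A.erase v).card = 2 * k - 1 := by
    intro v hv
    rw [Finset.card_erase_of_mem hv, hA]
  have hge : ∀ v ∈ A, 2 * k - 1 ≤ ∑ x ∈ A.erase v, M v x := by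
    intro v hv
    rw [← hcard v hv, Finset.card_eq_sum_ones]
    exact Finset.sum_le_sum fun x hx => (hodd1 v hv x hx).pos
  have hpar : ∀ v ∈ A, Odd (∑ x ∈ A.erase v, M v x) := by
    intro v hv
    rw [Finset.odd_sum_iff_odd_card_odd]
    have : (A.erase v).filter (fun x => Odd (M v x)) = A.erase v :=
      Finset.filter_true_of_mem (hodd1 v hv)
    rw [this, hcard v hv]
    rw [Nat.odd_iff]
    omega
  have hev : ∀ v ∈ A, Even (∑ x ∈ (A.erase v)ᶜ, M v x) := by
    intro v hv
    exact Finset.even_sum _ (heven v hv)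
  have hz : ∀ v ∈ A, ∑ x ∈ (A.erase v)ᶜ, M v x = 0 := by
    intro v hv
    have h1 := hle v
    rw [hsplit] at h1
    have h2 := hge v hv
    obtain ⟨c, hc⟩ := hpar v hv
    obtain ⟨d, hd⟩ := hev v hv
    omega
  have hmk : m = k := by
    have hne : A.Nonempty := by
      rw [← Finset.card_pos, hA]
      omega
    obtain ⟨v, hv⟩ := hne
    have h1 := hle v
    rw [hsplit] at h1
    have h2 := hge v hv
    omega
  -- no crossing edge
  have hcr : ∀ v ∈ A, ∀ x ∉ A, ∀ i, s(v, x) ∉ (P i).2.1.edges := by
    intro v hv x hx i hi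
    have h1 : M v x = 0 := by
      refine (Finset.sum_eq_zero_iff.1 (hz v hv)) x ?_
      rw [Finset.mem_compl, Finset.mem_erase]
      tauto
    have h2 : i ∈ Finset.univ.filter fun i : Fin m => s(v, x) ∈ (P i).2.1.edges := by
      simp [hi]
    rw [hMd] at h1
    have h3 := Finset.card_eq_zero.1 h1
    rw [h3] at h2
    exact absurd h2 (Finset.notMem_empty i)
  -- the path through the edge `ab`
  have hpos : 0 < M a b := ((hM a b).2 hab).pos
  obtain ⟨i, hi⟩ := Finset.card_pos.1 hpos
  simp only [Finset.mem_filter, Finset.mem_univ, true_and] at hi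
  have ha' : a ∈ (P i).2.1.support := (P i).2.1.fst_mem_support_of_mem_edges hi
  -- a vertex of `A` on it
  have hne : A.Nonempty := by
    rw [← Finset.card_pos, hA]
    omega
  obtain ⟨c, hc⟩ := hne
  have hc' : c ∈ (P i).2.1.support := by
    by_contra hcon
    have hz : (nb (P i).2.1 c).card = 0 := by
      rw [Finset.card_eq_zero]
      apply Finset.eq_empty_of_forall_notMem
      intro x hx
      simp only [nb, Finset.mem_filter, Finset.mem_univ, true_and] at hx
      exact hcon ((P i).2.1.fst_mem_support_of_mem_edges hx)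
    have h2 : ∑ x, M c x ≤ 2 * (m - 1) := by
      rw [hsum, ← Finset.add_sum_erase _ _ (Finset.mem_univ i), hz, zero_add]
      calc ∑ j ∈ Finset.univ.erase i, (nb (P j).2.1 c).card
          ≤ ∑ _j ∈ Finset.univ.erase i, 2 :=
            Finset.sum_le_sum (fun j _ => nb_le c _ (P j).2.2)
        _ = (Finset.univ.erase i).card * 2 := by simp
        _ = 2 * (m - 1) := by
          rw [Finset.card_erase_of_mem (Finset.mem_univ i), Finset.card_univ, Fintype.card_fin,
            mul_comm]
    rw [hsplit] at h2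
    have h3 := hge c hc
    omega
  by_cases hu : (P i).1.1 ∈ A
  · have hd := ((P i).2.1.takeUntil a ha').exists_boundary_dart (A : Set V) hu ha
    obtain ⟨d, hd, h1, h2⟩ := hd
    have h3 : d.edge ∈ ((P i).2.1.takeUntil a ha').edges := List.mem_map_of_mem hd
    exact hcr d.fst h1 d.snd h2 i ((P i).2.1.edges_takeUntil_subset_edges ha' h3)
  · have hd := ((P i).2.1.takeUntil c hc').exists_boundary_dart {x : V | x ∉ A} hu
      (by simpa using hc)
    obtain ⟨d, hd, h1, h2⟩ := hd
    have h3 : d.edge ∈ ((P i).2.1.takeUntil c hc').edges := List.mem_map_of_mem hd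
    have h4 := (P i).2.1.edges_takeUntil_subset_edges hc' h3
    have h5 : s(d.snd, d.fst) ∈ (P i).2.1.edges := by
      rw [Sym2.eq_swap]
      exact h4
    exact hcr d.snd (by simpa using h2) d.fst h1 i h5

end Pool.Agent.Work.MP_31464c_co
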